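import Pool.Agent.Lib.MP_dee342_nt.AbLink
import Pool.Agent.Lib.MP_dee342_nt.AbMain

/-!
All integers of `[-x, x]` except at most `C x N ^ (-c)` reach `[-N, N]` within `C log x` steps of
the `3x+1` map, for all `x, N ≥ 1`, with some `c > 1 - H (log 2 / log 3) / log 2`.
-/

set_option autoImplicit false

namespace Pool.Agent.Lib.MP_dee342_nt.Retired.AlmostBounded

open Pool.Agent.Lib.MP_dee342_nt

theorem result : ∃ δ > 0, ∃ C : ℝ, ∀ x N : ℝ, 1 ≤ x → 1 ≤ N →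
    ({n : ℤ | |(n : ℝ)| ≤ x ∧ ∀ j : ℕ, (j : ℝ) ≤ C * Real.log x →
      N < |(((T 3)^[j] n : ℤ) : ℝ)|}.ncard : ℝ) ≤
        C * x * N ^ (-(1 - Real.binEntropy (Real.log 2 / Real.log 3) / Real.log 2 + δ)) :=
  Ab.main

/-- Almost all orbits, in the sense of natural density, attain almost bounded values. -/
theorem natural_density (f : ℤ → ℝ) (hf : ∀ M : ℝ, ∃ R : ℤ, ∀ n : ℤ, R ≤ |n| → M ≤ f n) :
    ∀ ε : ℝ, 0 < ε → ∃ X : ℝ, ∀ x : ℝ, X ≤ x → ({n : ℤ | |(n : ℝ)| ≤ x ∧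
      ∀ j : ℕ, f n < |(((T 3)^[j] n : ℤ) : ℝ)|}.ncard : ℝ) ≤ ε * x := by
  intro ε hε
  obtain ⟨δ, hδ, C, h⟩ := result
  have h1 := (div_le_one (Real.log_pos one_lt_two)).2
    (Real.binEntropy_le_log_two (p := Real.log 2 / Real.log 3))
  have h2 := (tendsto_rpow_neg_atTop (show 0 < 1 - Real.binEntropy (Real.log 2 / Real.log 3) /
    Real.log 2 + δ by linarith)).const_mul C
  rw [mul_zero] at h2
  obtain ⟨N, h3, h4⟩ := ((h2.eventually_lt_const (half_pos hε)).and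
    (Filter.eventually_ge_atTop 1)).exists
  obtain ⟨R, hR⟩ := hf N
  have h5 : {n | ¬ N ≤ f n}.Finite := (Set.finite_Icc (-R) R).subset fun n hn =>
    abs_le.1 (not_le.1 fun e => hn (hR n e)).le
  refine ⟨max 1 (2 * ({n | ¬ N ≤ f n}.ncard : ℝ) / ε), fun x hX => ?_⟩
  have hx : 1 ≤ x := (le_max_left _ _).trans hX
  have h7 := (div_le_iff₀ hε).1 ((le_max_right _ _).trans hX)
  have h8 := (Set.ncard_le_ncard (s := {n : ℤ | |(n : ℝ)| ≤ x ∧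
      ∀ j : ℕ, f n < |(((T 3)^[j] n : ℤ) : ℝ)|}) (fun n hn => (em (N ≤ f n)).symm.imp id
        fun e => ⟨hn.1, fun j _ => e.trans_lt (hn.2 j)⟩)
    (h5.union (s := {n | ¬ N ≤ f n}) (t := {n : ℤ | |(n : ℝ)| ≤ x ∧ ∀ j : ℕ, (j : ℝ) ≤ C * Real.log x →
      N < |(((T 3)^[j] n : ℤ) : ℝ)|}) ((Set.finite_Icc (-⌈x⌉) ⌈x⌉).subset fun n hn => abs_le.1
        (by exact_mod_cast hn.1.trans (Int.le_ceil x))))).trans
    (Set.ncard_union_le {n | ¬ N ≤ f n} _)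
  have h9 := (Nat.cast_le (α := ℝ)).2 h8
  push_cast at h9
  linarith [h x N hx h4, mul_lt_mul_of_pos_right h3 (show 0 < x by linarith)]

/-- At most `C x N ^ (-c)` integers of `[-x, x]` have an orbit that ends in a cycle which no point
of `[-N, N]` reaches. -/
theorem unreached : ∃ δ > 0, ∃ C : ℝ, ∀ x N : ℝ, 1 ≤ x → 1 ≤ N →
    ({n : ℤ | |(n : ℝ)| ≤ x ∧ ∃ j p : ℕ, 0 < p ∧ (T 3)^[p] ((T 3)^[j] n) = (T 3)^[j] n ∧
      ∀ y : ℤ, |(y : ℝ)| ≤ N → ∀ i : ℕ, (T 3)^[i] y ≠ (T 3)^[j] n}.ncard : ℝ) ≤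
        C * x * N ^ (-(1 - Real.binEntropy (Real.log 2 / Real.log 3) / Real.log 2 + δ)) := by
  obtain ⟨δ, hδ, C, h⟩ := result
  refine ⟨δ, hδ, C, fun x N hx hN => le_trans ?_ (h x N hx hN)⟩
  refine Nat.cast_le.2 (Set.ncard_le_ncard (fun n ⟨h1, j, p, h0, h2, h3⟩ => ⟨h1, fun t _ => ?_⟩)
    ((Set.finite_Icc (-⌈x⌉) ⌈x⌉).subset fun n hn => abs_le.1 ?_))
  · refine not_le.1 fun h4 => h3 _ h4 (p * t + j - t) ?_
    have h5 : t ≤ p * t := Nat.le_mul_of_pos_left t h0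
    rw [← Function.iterate_add_apply, show p * t + j - t + t = p * t + j by omega,
      Function.iterate_add_apply, Function.iterate_mul]
    exact Function.iterate_fixed h2 t
  · exact_mod_cast hn.1.trans (Int.le_ceil x)

/-- The statement of `result` with an exponent above one gives the `3x+1` half of the problem. -/
theorem exponent_needed (c C : ℝ) (hc : 1 < c) (h : ∀ x N : ℝ, 1 ≤ x → 1 ≤ N →
    ({n : ℤ | |(n : ℝ)| ≤ x ∧ ∀ j : ℕ, (j : ℝ) ≤ C * Real.log x →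
      N < |(((T 3)^[j] n : ℤ) : ℝ)|}.ncard : ℝ) ≤ C * x * N ^ (-c)) :
    ∃ B : ℤ, ∀ n : ℤ, (∃ p : ℕ, 0 < p ∧ (T 3)^[p] n = n) → |n| ≤ B :=
  ((Ab.link_pow hc h).image abs).bddAbove.imp fun _ hB n hp => hB ⟨n, hp, rfl⟩

/-- The rate that is needed: with `o(x / N)` in place of `C x N ^ (-c)` (and no limit on the number
of steps) the positive periodic points of the `3x+1` map are bounded. -/
theorem rate_needed (h : ∀ ε : ℝ, 0 < ε → ∃ M : ℕ, ∀ N : ℕ, M ≤ N → ∃ X : ℝ, ∀ x : ℝ, X ≤ x →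
    ({n : ℤ | |(n : ℝ)| ≤ x ∧ ∀ j : ℕ, (N : ℝ) < |(((T 3)^[j] n : ℤ) : ℝ)|}.ncard : ℝ) ≤
      ε * x / N) :
    ∃ B : ℤ, ∀ n : ℤ, 0 < n → (∃ p : ℕ, 0 < p ∧ (T 3)^[p] n = n) → n ≤ B :=
  (Ab.link fun ε hε => Filter.eventually_atTop.2 ((h ε hε).imp fun _ hM N hN =>
    Filter.eventually_atTop.2 (hM N hN))).bddAbove.imp fun _ hB _ h0 hp => hB ⟨hp, h0⟩

/-- For every `N ≥ 1` there is a set of at most `2 N + 1` cycles such that at most `C x N ^ (-c)`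
integers of `[-x, x]` have an orbit that ends in another cycle. -/
theorem basins : ∃ δ > 0, ∃ C : ℝ, ∀ N : ℕ, 1 ≤ N → ∃ F : Finset (Cycle ℤ), F.card ≤ 2 * N + 1 ∧
    ∀ x : ℝ, 1 ≤ x → ({n : ℤ | |(n : ℝ)| ≤ x ∧ ∃ j, (T 3)^[j] n ∈ Function.periodicPts (T 3) ∧
      Function.periodicOrbit (T 3) ((T 3)^[j] n) ∉ F}.ncard : ℝ) ≤
        C * x * (N : ℝ) ^ (-(1 - Real.binEntropy (Real.log 2 / Real.log 3) / Real.log 2 + δ)) := by
  classical
  obtain ⟨δ, hδ, C, h⟩ := result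
  let c : ℤ → Cycle ℤ := fun y => if e : ∃ i, (T 3)^[i] y ∈ Function.periodicPts (T 3) then
    Function.periodicOrbit (T 3) ((T 3)^[e.choose] y) else Cycle.nil
  refine ⟨δ, hδ, C, fun N hN => ⟨(Finset.Icc (-N : ℤ) N).image c, Finset.card_image_le.trans
    (by rw [Int.card_Icc]; omega), fun x hx => le_trans ?_ (h x N hx (by exact_mod_cast hN))⟩⟩
  refine Nat.cast_le.2 (Set.ncard_le_ncard (fun n ⟨h1, j, h2, h3⟩ => ⟨h1, fun t _ => ?_⟩)
    ((Set.finite_Icc (-⌈x⌉) ⌈x⌉).subset fun n hn => abs_le.1 ?_))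
  · refine not_le.1 fun h4 => h3 (Finset.mem_image.2 ⟨(T 3)^[t] n,
      Finset.mem_Icc.2 (abs_le.1 (by exact_mod_cast h4)), ?_⟩)
    have h5 : (T 3)^[j] ((T 3)^[t] n) = (T 3)^[t] ((T 3)^[j] n) :=
      Function.Commute.iterate_iterate_self _ _ _ n
    have e : ∃ i, (T 3)^[i] ((T 3)^[t] n) ∈ Function.periodicPts (T 3) :=
      ⟨j, h5 ▸ (Function.bijOn_periodicPts (T 3)).mapsTo.iterate t h2⟩
    simp only [c, dif_pos e]
    rw [← Function.periodicOrbit_apply_iterate_eq e.choose_spec j,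
      Function.Commute.iterate_iterate_self _ j, h5, Function.periodicOrbit_apply_iterate_eq
        ((Function.bijOn_periodicPts (T 3)).mapsTo.iterate t h2),
      Function.periodicOrbit_apply_iterate_eq h2]
  · exact_mod_cast hn.1.trans (Int.le_ceil x)

end Pool.Agent.Lib.MP_dee342_nt.Retired.AlmostBounded
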