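import Pool.Agent.Lib.MP_dee342_nt.GrLZLoc
import Pool.Agent.Lib.MP_dee342_nt.GrLZMain
import Pool.Agent.Lib.MP_dee342_nt.LocParse

namespace Pool.Agent.Lib.MP_dee342_nt.Retired.FewCopies

open Pool.Agent.Lib.MP_dee342_nt

/-- For `3x+1` and `5x+1` there is `c` such that for every `q` only finitely many periodic points
`x`, of minimal period `p`, are within a factor `2^N` of the least absolute value on their cycle,
for some `N ≥ log p`, and have an initial segment of their parity word, of length more than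
`c (q + 1) N` and at most `p`, that is cut into `q` pieces, each literal or a copy of earlier
letters, the literal pieces having total length at most `N`. The rest of the word is arbitrary. -/
theorem result (a : ℕ) (ha : a = 3 ∨ a = 5) : ∃ c : ℕ, ∀ q : ℕ,
    {x : ℤ | x ∈ Function.periodicPts (T a) ∧ ∃ (N : ℕ) (s v : ℕ → ℕ),
      Real.log (Function.minimalPeriod (T a) x) ≤ N ∧ (∀ i, |x| ≤ 2 ^ N * |(T a)^[i] x|) ∧
      LZParse a x q N s v ∧ c * (q + 1) * N < s q ∧
      s q ≤ Function.minimalPeriod (T a) x}.Finite :=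
  Gr.local_copies a ha

/-- The window theorem behind it, for any integer with distinct iterates and any odd `a ≥ 3`. -/
theorem any_orbit (a : ℕ) (ha : a % 2 = 1) (ha3 : 3 ≤ a) : ∃ c : ℕ, ∀ q : ℕ, ∃ N₀ : ℕ, ∀ N ≥ N₀,
    ∀ (x : ℤ) (s v : ℕ → ℕ), |x| ≤ 2 ^ N → LZParse a x q N s v →
      (∀ i j, i < j → j < s q → (T a)^[i] x ≠ (T a)^[j] x) → s q ≤ c * (q + 1) * N :=
  Gr.window a (Nat.odd_iff.2 ha) ha3

/-- The global form obtained by summing over the scales: only finitely many cycles have a parity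
word cut into at most `C log p` copies of earlier letters, each after a short arbitrary start. -/
theorem whole_period (a : ℕ) (ha : a % 2 = 1) (ha3 : 3 ≤ a) (C : ℝ) :
    ∃ M : ℕ, {x : ℤ | x ∈ Function.periodicPts (T a) ∧ (∀ i, |x| ≤ |(T a)^[i] x|) ∧
      ∃ (m : ℕ) (t : ℕ → ℕ), (∀ j, t j ≤ t (j + 1)) ∧ t 0 = 0 ∧
        t m = Function.minimalPeriod (T a) x ∧
        (m : ℝ) ≤ C * Real.log (Function.minimalPeriod (T a) x) ∧
        ∀ j < m, ∃ r v : ℕ, t j ≤ r ∧ r ≤ t (j + 1) ∧ M * (r - t j) ≤ M + (t (j + 1) - t j) ∧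
          1 ≤ v ∧ ∀ i, r ≤ i → i < t (j + 1) → v ≤ i ∧ par a x (i - v) = par a x i}.Finite := by
  obtain ⟨M, hM⟩ := Gr.few_copies a (Nat.odd_iff.2 ha) ha3 C
  exact ⟨M, hM.subset fun x ⟨h1, h2, m, t, h3, h4⟩ =>
    ⟨h1, h2, m, t, monotone_nat_of_le_succ h3, h4⟩⟩

end Pool.Agent.Lib.MP_dee342_nt.Retired.FewCopies
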