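import Pool.Agent.Lib.MP_dee342_nt.CountFar

set_option autoImplicit false

namespace Pool.Agent.Lib.MP_dee342_nt.Retired.FiveClimb

open Pool.Agent.Lib.MP_dee342_nt

theorem endpoint : Real.binEntropy (Real.log 5 / Real.log 4 * (Real.log 2 / Real.log (5 : ℕ))) /
    Real.log 2 = 1 := by
  have l2 : 0 < Real.log 2 := Real.log_pos (by norm_num)
  have l5 : 0 < Real.log 5 := Real.log_pos (by norm_num)
  have l4 : Real.log 4 = 2 * Real.log 2 := by
    rw [show (4 : ℝ) = 2 ^ 2 by norm_num, Real.log_pow]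
    norm_num
  have e : Real.log 5 / Real.log 4 * (Real.log 2 / Real.log (5 : ℕ)) = 2⁻¹ := by
    rw [l4, Nat.cast_ofNat]
    field_simp
  rw [e, Real.binEntropy_two_inv, div_self l2.ne']

/-- Periodicity is not needed for `a ≥ 5`: all but `O(x ^ (1 - δ))` integers of `[-x, x]` climb
above `x ^ (log₄ 5 + δ)` under `T_5` within `2 log₂ x` steps. -/
theorem five_climb : ∃ δ > 0, ∃ C : ℝ, ∀ x : ℝ, 1 ≤ x →
    ({n : ℤ | |(n : ℝ)| ≤ x ∧ ∀ j : ℕ, (j : ℝ) ≤ 2 * Real.logb 2 x →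
        |(((T 5)^[j] n : ℤ) : ℝ)| ≤ x ^ (Real.log 5 / Real.log 4 + δ)}.ncard : ℝ) ≤
      C * x ^ (1 - δ) := by
  have h := Count.far (a := 5) (by decide) le_rfl (θ := Real.log 5 / Real.log 4)
    ((one_le_div (Real.log_pos (by norm_num))).mpr (Real.log_le_log (by norm_num) (by norm_num)))
    (by norm_num)
  rw [endpoint] at h
  exact h

end Pool.Agent.Lib.MP_dee342_nt.Retired.FiveClimb
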